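import Pool.Agent.Helper44_Art.Api

/-! Squad ART, module ACT. -/

set_option autoImplicit false

namespace Art.H81

open Art

/-- the alternating product with `m` letters whose last letter is the first argument -/
def altr {G : Type} [Monoid G] : ℕ → G → G → G
  | 0, _, _ => 1
  | m + 1, a, b => altr m b a * a

theorem alt_succ {G : Type} [Monoid G] (m : ℕ) (a b : G) :
    alt (m + 1) a b = alt m a b * (if Even m then a else b) := by
  unfold alt
  rw [List.range_succ, List.map_append, List.prod_append]
  simp

theorem alt_eq {G : Type} [Monoid G] (m : ℕ) (a b : G) :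
    alt m a b = if Even m then altr m b a else altr m a b := by
  induction m with
  | zero => simp [alt, altr]
  | succ m ih =>
    rw [alt_succ, ih]
    by_cases h : Even m
    · have h' : ¬ Even (m + 1) := by rw [Nat.even_add_one]; exact not_not.mpr h
      rw [if_pos h, if_pos h, if_neg h']
      rfl
    · have h' : Even (m + 1) := by rw [Nat.even_add_one]; exact h
      rw [if_neg h, if_neg h, if_pos h']
      rfl

theorem altr_swap {G : Type} [Group G] (m : ℕ) : ∀ (a b : G), a * a = 1 → b * b = 1 →
    altr m b a = altr m a b * (a * b) ^ m := by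
  induction m with
  | zero => intro a b _ _; simp [altr]
  | succ m ih =>
    intro a b ha hb
    change altr m a b * b = altr m b a * a * (a * b) ^ (m + 1)
    rw [ih b a hb ha, pow_succ', mul_assoc, mul_assoc, mul_pow_mul]
    congr 1
    rw [← mul_assoc, ← mul_assoc, ha, one_mul]

section
variable {S F E : Type} [Group F] (f : S → F) (ε : F → Equiv.Perm E)

/-- the permutation of a generator -/
def sig (hf : ∀ s, f s * f s = 1) (s : S) : Equiv.Perm (E × F) where
  toFun x := (ε (x.2⁻¹ * f s * x.2) x.1, f s * x.2)
  invFun x := ((ε (x.2⁻¹ * f s * x.2))⁻¹ x.1, f s * x.2)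
  left_inv := by
    rintro ⟨e, c⟩
    have h1 : (f s * c)⁻¹ * f s * (f s * c) = c⁻¹ * f s * c := by
      have h2 : (f s)⁻¹ = f s := inv_eq_of_mul_eq_one_left (hf s)
      rw [mul_inv_rev, h2]
      simp only [mul_assoc]
      rw [← mul_assoc (f s) (f s) (f s * c), hf s, one_mul]
    simp only [h1]
    rw [← mul_assoc, hf s, one_mul]
    simp
  right_inv := by
    rintro ⟨e, c⟩
    have h1 : (f s * c)⁻¹ * f s * (f s * c) = c⁻¹ * f s * c := by
      have h2 : (f s)⁻¹ = f s := inv_eq_of_mul_eq_one_left (hf s)
      rw [mul_inv_rev, h2]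
      simp only [mul_assoc]
      rw [← mul_assoc (f s) (f s) (f s * c), hf s, one_mul]
    simp only [h1]
    rw [← mul_assoc, hf s, one_mul]
    simp

/-- the items -/
def item (s t : S) (c : F) (k : ℕ) : Equiv.Perm E := ε (c⁻¹ * ((f s * f t) ^ k * f s) * c)

theorem item_succ (hf : ∀ s, f s * f s = 1) (s t : S) (c : F) (k : ℕ) :
    item f ε s t c (k + 1) = item f ε t s (f s * c) k := by
  unfold item
  congr 1
  have h2 : (f s)⁻¹ = f s := inv_eq_of_mul_eq_one_left (hf s)
  rw [mul_inv_rev, h2, pow_succ, ← mul_assoc ((f s * f t) ^ k), mul_pow_mul]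
  simp only [mul_assoc]

theorem formula (hf : ∀ s, f s * f s = 1) (m : ℕ) : ∀ (s t : S) (e : E) (c : F),
    (altr m (sig f ε hf s) (sig f ε hf t)) (e, c) =
      (((List.range m).map (item f ε s t c)).reverse.prod e, altr m (f s) (f t) * c) := by
  induction m with
  | zero => intro s t e c; simp [altr]
  | succ m ih =>
    intro s t e c
    change (altr m (sig f ε hf t) (sig f ε hf s)) (ε (c⁻¹ * f s * c) e, f s * c) = _
    rw [ih t s]
    have h1 : (List.range (m + 1)).map (item f ε s t c) =
        item f ε s t c 0 :: (List.range m).map (item f ε t s (f s * c)) := by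
      rw [List.range_succ_eq_map, List.map_cons, List.map_map]
      congr 1
      refine List.map_congr_left fun k _ => ?_
      exact item_succ f ε hf s t c k
    rw [h1, List.reverse_cons, List.prod_append]
    have h2 : item f ε s t c 0 = ε (c⁻¹ * f s * c) := by
      unfold item
      rw [pow_zero, one_mul]
    rw [h2]
    simp only [List.prod_cons, List.prod_nil, mul_one, Equiv.Perm.mul_apply]
    congr 1
    change altr m (f t) (f s) * (f s * c) = altr m (f t) (f s) * f s * c
    rw [mul_assoc]

theorem item_rev (hf : ∀ s, f s * f s = 1) (s t : S) (m : ℕ) (hm : (f s * f t) ^ m = 1) (c : F) :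
    (List.range m).map (item f ε t s c) = ((List.range m).map (item f ε s t c)).reverse := by
  apply List.ext_getElem
  · simp
  · intro i h1 h2
    simp only [List.length_map, List.length_range] at h1
    rw [List.getElem_reverse]
    simp only [List.getElem_map, List.getElem_range, List.length_map, List.length_range]
    unfold item
    congr 3
    have hi : m = (m - 1 - i) + 1 + i := by omega
    have h3 : (f t * f s) ^ i * (f s * f t) ^ i = 1 := by
      have : f t * f s = (f s * f t)⁻¹ := by
        rw [mul_inv_rev, inv_eq_of_mul_eq_one_left (hf s), inv_eq_of_mul_eq_one_left (hf t)]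
      rw [this, inv_pow, inv_mul_cancel]
    have h4 : (f s * f t) ^ (m - 1 - i + 1) * (f s * f t) ^ i = 1 := by
      rw [← pow_add, ← hi, hm]
    have h5 : (f t * f s) ^ i = (f s * f t) ^ (m - 1 - i + 1) :=
      mul_right_cancel (h3.trans h4.symm)
    rw [h5, pow_succ]
    simp only [mul_assoc]
    rw [hf t, mul_one]

theorem act : ActStmt := by
  intro S M F E _ f ε hf hpow hrev
  have hbraid : ∀ s t : S, M.M s t ≠ 0 →
      alt (M.M s t) (sig f ε hf s) (sig f ε hf t) = alt (M.M s t) (sig f ε hf t) (sig f ε hf s) := by
    intro s t hst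
    have key : altr (M.M s t) (sig f ε hf s) (sig f ε hf t) =
        altr (M.M s t) (sig f ε hf t) (sig f ε hf s) := by
      apply Equiv.ext
      rintro ⟨e, c⟩
      rw [formula, formula, item_rev f ε hf s t _ (hpow s t hst) c, List.reverse_reverse]
      have h1 := altr_swap (M.M s t) (f s) (f t) (hf s) (hf t)
      rw [hpow s t hst, mul_one] at h1
      have h2 := hrev c s t hst
      rw [h1]
      congr 1
      change _ = ((List.range (M.M s t)).map (item f ε s t c)).prod e
      have h3 : ((List.range (M.M s t)).map (item f ε s t c)).prod =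
        ((List.range (M.M s t)).map (item f ε s t c)).reverse.prod := h2
      rw [h3]
    rw [alt_eq, alt_eq, key]
  obtain ⟨Φ, hΦ⟩ := Art.lift M (sig f ε hf) hbraid
  refine ⟨Φ, fun s e c => ?_⟩
  rw [hΦ]
  rfl

end

end Art.H81
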